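import Pool.Agent.H20.CircDraw

namespace Pool.Agent.Results.MP_755a2c_co.Heptagon
open Pool.Agent.H20

theorem result : ¬ ∀ (k n : ℕ), 1 ≤ k → 3 ≤ n → ∀ G : SimpleGraph (Fin n), MatchingPlanar G k →
    ∃ T, IsTriangulation T ∧ ∀ t ∈ T, ¬ CrossedByMatching G (k + 1) t := by
  intro h
  obtain ⟨T, h1, h2⟩ := h 1 7 (by norm_num) (by norm_num) CircDraw.G CircDraw.mp
  obtain ⟨t, ht, h3⟩ := CircDraw.no_tri T h1
  exact h2 t ht h3

end Pool.Agent.Results.MP_755a2c_co.Heptagon
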